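import Pool.Agent.Lib.MP_4a358c_co.H63.Skew
import Pool.Agent.Lib.MP_4a358c_co.H63.TwoJoin

/-!
# MP_4a358c_co, Q1 (Conforti, Cornuéjols, Rao): a counterexample

There is a balanced graph (on 48 vertices) that is not basic and has neither a 2-join nor a skew
partition.
-/

namespace Pool.Agent.Results.MP_4a358c_co.Counterexample

open SimpleGraph

/-- Every induced cycle (of length at least 3) has length divisible by 4. An embedding of
`cycleGraph n` is an induced cycle of length `n`. -/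
def Balanced {V : Type} (G : SimpleGraph V) : Prop :=
  ∀ n : ℕ, 3 ≤ n → Nonempty (cycleGraph n ↪g G) → n % 4 = 0

/-- (a) `G` has a bipartition `(X, Y)` in which all vertices of `X` have degree at most 2, or
(b) `G` has a hole (an induced cycle `f` of length `n ≥ 4`) such that the vertices outside of it
induce a complete bipartite graph with parts `S`, `T`. The parts may be empty, which makes the
negation only stronger. -/
def Basic {V : Type} (G : SimpleGraph V) : Prop :=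
  (∃ X Y : Set V, X ∪ Y = Set.univ ∧ Disjoint X Y ∧
    (∀ u ∈ X, ∀ v ∈ X, ¬ G.Adj u v) ∧ (∀ u ∈ Y, ∀ v ∈ Y, ¬ G.Adj u v) ∧
    ∀ u ∈ X, (G.neighborSet u).ncard ≤ 2) ∨
  (∃ n : ℕ, 4 ≤ n ∧ ∃ f : cycleGraph n ↪g G, ∃ S T : Set V, Disjoint S T ∧
    S ∪ T = (Set.range f)ᶜ ∧
    ∀ u ∈ S ∪ T, ∀ v ∈ S ∪ T, (G.Adj u v ↔ (u ∈ S ∧ v ∈ T) ∨ (u ∈ T ∧ v ∈ S)))

/-- `f` is a chordless path in `G[W]` with one end in `A`, the other end in `B` and no interior
vertex in `A ∪ B`. -/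
def IsPathIn {V : Type} (G : SimpleGraph V) (W A B : Set V) (k : ℕ)
    (f : pathGraph (k + 1) ↪g G) : Prop :=
  (∀ i, f i ∈ W) ∧ f 0 ∈ A ∧ f (Fin.last k) ∈ B ∧
    ∀ i, i ≠ 0 → i ≠ Fin.last k → f i ∉ A ∪ B

/-- The condition on one side of a 2-join: the set of paths is nonempty, and `G[W]` is not
isomorphic to one of them. -/
def SideCondition {V : Type} (G : SimpleGraph V) (W A B : Set V) : Prop :=
  (∃ (k : ℕ) (f : pathGraph (k + 1) ↪g G), IsPathIn G W A B k f) ∧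
  ¬ ∃ (k : ℕ) (f : pathGraph (k + 1) ↪g G), IsPathIn G W A B k f ∧
    Nonempty (G.induce W ≃g pathGraph (k + 1))

/-- `G` has a 2-join. -/
def HasTwoJoin {V : Type} (G : SimpleGraph V) : Prop :=
  ∃ V₁ V₂ A₁ B₁ A₂ B₂ : Set V, V₁ ∪ V₂ = Set.univ ∧ Disjoint V₁ V₂ ∧
    A₁ ⊆ V₁ ∧ B₁ ⊆ V₁ ∧ A₂ ⊆ V₂ ∧ B₂ ⊆ V₂ ∧
    A₁.Nonempty ∧ B₁.Nonempty ∧ A₂.Nonempty ∧ B₂.Nonempty ∧
    Disjoint A₁ B₁ ∧ Disjoint A₂ B₂ ∧
    (∀ u ∈ V₁, ∀ v ∈ V₂, (G.Adj u v ↔ (u ∈ A₁ ∧ v ∈ A₂) ∨ (u ∈ B₁ ∧ v ∈ B₂))) ∧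
    SideCondition G V₁ A₁ B₁ ∧ SideCondition G V₂ A₂ B₂

/-- `G` has a skew partition. -/
def HasSkewPartition {V : Type} (G : SimpleGraph V) : Prop :=
  ∃ A₁ A₂ B₁ B₂ : Set V, A₁.Nonempty ∧ A₂.Nonempty ∧ B₁.Nonempty ∧ B₂.Nonempty ∧
    A₁ ∪ A₂ ∪ B₁ ∪ B₂ = Set.univ ∧ Disjoint A₁ A₂ ∧ Disjoint B₁ B₂ ∧
    Disjoint (A₁ ∪ A₂) (B₁ ∪ B₂) ∧
    (∀ u ∈ A₁, ∀ v ∈ A₂, ¬ G.Adj u v) ∧ (∀ u ∈ B₁, ∀ v ∈ B₂, G.Adj u v)

open Pool.Agent.Lib.MP_4a358c_co.H63

theorem balanced_G : Balanced G := by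
  rintro n hn ⟨f⟩
  exact (cycle_sound hn f).1

theorem deg_three (u a b c : Fin 48) (hab : a ≠ b) (hac : a ≠ c) (hbc : b ≠ c)
    (ha : G.Adj u a) (hb : G.Adj u b) (hc : G.Adj u c) : ¬ (G.neighborSet u).ncard ≤ 2 := by
  intro h
  have hsub : ({a, b, c} : Set (Fin 48)) ⊆ G.neighborSet u := by
    intro x hx
    simp only [Set.mem_insert_iff, Set.mem_singleton_iff] at hx
    rcases hx with rfl | rfl | rfl
    · exact ha
    · exact hb
    · exact hc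
  have h1 := Set.ncard_le_ncard hsub (Set.toFinite _)
  rw [Set.ncard_eq_three.2 ⟨a, b, c, hab, hac, hbc, rfl⟩] at h1
  omega

theorem not_basic_G : ¬ Basic G := by
  rintro (⟨X, Y, hXY, -, -, hY, hdeg⟩ | ⟨n, hn, f, S, T, -, hST, hcb⟩)
  · have hcov : ∀ x : Fin 48, x ∈ X ∨ x ∈ Y := fun x => by
      have : x ∈ X ∪ Y := by rw [hXY]; trivial
      exact this
    have d0 : ¬ (G.neighborSet 0).ncard ≤ 2 :=
      deg_three 0 4 5 8 (by decide) (by decide) (by decide) (by decide +kernel)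
        (by decide +kernel) (by decide +kernel)
    have d4 : ¬ (G.neighborSet 4).ncard ≤ 2 :=
      deg_three 4 0 1 2 (by decide) (by decide) (by decide) (by decide +kernel)
        (by decide +kernel) (by decide +kernel)
    rcases hcov 0 with h0 | h0
    · exact d0 (hdeg 0 h0)
    · rcases hcov 4 with h4 | h4
      · exact d4 (hdeg 4 h4)
      · exact hY 0 h0 4 h4 (by decide +kernel)
  · obtain ⟨-, a, b, c, hab, hac, hbc, ha, hb, hc⟩ := cycle_sound (by omega) f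
    have ha' : a ∈ S ∪ T := by rw [hST]; exact ha
    have hb' : b ∈ S ∪ T := by rw [hST]; exact hb
    have hc' : c ∈ S ∪ T := by rw [hST]; exact hc
    rcases (hcb a ha' b hb').1 hab with ⟨h1, h2⟩ | ⟨h1, h2⟩
    · rcases hc' with h3 | h3
      · exact hbc ((hcb b hb' c (Or.inl h3)).2 (Or.inr ⟨h2, h3⟩))
      · exact hac ((hcb a ha' c (Or.inr h3)).2 (Or.inl ⟨h1, h3⟩))
    · rcases hc' with h3 | h3
      · exact hac ((hcb a ha' c (Or.inl h3)).2 (Or.inr ⟨h1, h3⟩))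
      · exact hbc ((hcb b hb' c (Or.inr h3)).2 (Or.inl ⟨h2, h3⟩))

theorem np_of_side {W A B : Set (Fin 48)} (h : SideCondition G W A B)
    {s A' B' : Fin 48 → Prop} (hs : ∀ x, s x ↔ x ∈ W) (hA : ∀ x ∈ W, A' x ↔ x ∈ A)
    (hB : ∀ x ∈ W, B' x ↔ x ∈ B) : NP s A' B' := by
  have key : ∀ k (f : pathGraph (k + 1) ↪g G), Pth s A' B' k f ↔ IsPathIn G W A B k f := by
    intro k f
    unfold Pth IsPathIn
    constructor
    · rintro ⟨h1, h2, h3, h4⟩
      have h1' : ∀ i, f i ∈ W := fun i => (hs _).1 (h1 i)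
      refine ⟨h1', (hA _ (h1' _)).1 h2, (hB _ (h1' _)).1 h3, fun i hi hi' hmem => ?_⟩
      obtain ⟨g1, g2⟩ := h4 i hi hi'
      rcases hmem with hm | hm
      · exact g1 ((hA _ (h1' _)).2 hm)
      · exact g2 ((hB _ (h1' _)).2 hm)
    · rintro ⟨h1, h2, h3, h4⟩
      refine ⟨fun i => (hs _).2 (h1 i), (hA _ (h1 _)).2 h2, (hB _ (h1 _)).2 h3,
        fun i hi hi' => ⟨fun hm => h4 i hi hi' (Or.inl ((hA _ (h1 i)).1 hm)),
          fun hm => h4 i hi hi' (Or.inr ((hB _ (h1 i)).1 hm))⟩⟩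
  obtain ⟨⟨k, f, hf⟩, h2⟩ := h
  refine ⟨⟨k, f, (key k f).2 hf⟩, fun k f hf => ?_⟩
  by_contra hcon
  push Not at hcon
  have hf' := (key k f).1 hf
  refine h2 ⟨k, f, hf', ⟨Iso.symm ⟨Equiv.ofBijective (fun i => ⟨f i, hf'.1 i⟩) ⟨?_, ?_⟩, ?_⟩⟩⟩
  · intro i j hij
    exact f.injective (congrArg Subtype.val hij)
  · rintro ⟨x, hx⟩
    obtain ⟨i, hi⟩ := hcon x ((hs x).2 hx)
    exact ⟨i, Subtype.ext hi⟩
  · intro i j
    exact f.map_adj_iff

theorem no_two_join_G : ¬ HasTwoJoin G := by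
  rintro ⟨V₁, V₂, A₁, B₁, A₂, B₂, hV, hd, hA₁, hB₁, hA₂, hB₂, nA₁, nB₁, nA₂, nB₂, d₁, d₂, hcr,
    s₁, s₂⟩
  have hcov : ∀ x : Fin 48, x ∈ V₁ ∨ x ∈ V₂ := fun x => by
    have : x ∈ V₁ ∪ V₂ := by rw [hV]; trivial
    exact this
  have hd' : ∀ x, x ∈ V₁ → x ∈ V₂ → False := fun x h1 h2 => Set.disjoint_left.1 hd h1 h2
  have hn : ∀ x : Fin 48, ¬ x ∈ V₁ ↔ x ∈ V₂ := fun x =>
    ⟨fun h => (hcov x).resolve_left h, fun h h' => hd' x h' h⟩
  have t : TJ (fun x => x ∈ V₁) (fun x => x ∈ A₁ ∨ x ∈ A₂) (fun x => x ∈ B₁ ∨ x ∈ B₂) :=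
    { dis := by
        rintro u (h1 | h1) (h2 | h2)
        · exact Set.disjoint_left.1 d₁ h1 h2
        · exact hd' u (hA₁ h1) (hB₂ h2)
        · exact hd' u (hB₁ h2) (hA₂ h1)
        · exact Set.disjoint_left.1 d₂ h1 h2
      cross := by
        intro u v hu hv
        have hv' := (hn v).1 hv
        rw [hcr u hu v hv']
        constructor
        · rintro (⟨h1, h2⟩ | ⟨h1, h2⟩)
          · exact Or.inl ⟨Or.inl h1, Or.inr h2⟩
          · exact Or.inr ⟨Or.inl h1, Or.inr h2⟩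
        · rintro (⟨h1, h2⟩ | ⟨h1, h2⟩)
          · left
            exact ⟨h1.resolve_right fun h => hd' u hu (hA₂ h),
              h2.resolve_left fun h => hd' v (hA₁ h) hv'⟩
          · right
            exact ⟨h1.resolve_right fun h => hd' u hu (hB₂ h),
              h2.resolve_left fun h => hd' v (hB₁ h) hv'⟩
      a1 := by
        obtain ⟨u, hu⟩ := nA₁
        exact ⟨u, hA₁ hu, Or.inl hu⟩
      a2 := by
        obtain ⟨u, hu⟩ := nA₂
        exact ⟨u, (hn u).2 (hA₂ hu), Or.inr hu⟩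
      b1 := by
        obtain ⟨u, hu⟩ := nB₁
        exact ⟨u, hB₁ hu, Or.inl hu⟩
      b2 := by
        obtain ⟨u, hu⟩ := nB₂
        exact ⟨u, (hn u).2 (hB₂ hu), Or.inr hu⟩
      p1 := by
        refine np_of_side s₁ (fun x => Iff.rfl) ?_ ?_
        · intro x hx
          exact ⟨fun h => h.resolve_right fun h' => hd' x hx (hA₂ h'), Or.inl⟩
        · intro x hx
          exact ⟨fun h => h.resolve_right fun h' => hd' x hx (hB₂ h'), Or.inl⟩
      p2 := by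
        refine np_of_side s₂ hn ?_ ?_
        · intro x hx
          exact ⟨fun h => h.resolve_left fun h' => hd' x (hA₁ h') hx, Or.inr⟩
        · intro x hx
          exact ⟨fun h => h.resolve_left fun h' => hd' x (hB₁ h') hx, Or.inr⟩ }
  exact t.false

theorem no_skew_G : ¬ HasSkewPartition G := by
  rintro ⟨A₁, A₂, B₁, B₂, nA₁, nA₂, nB₁, nB₂, hU, dA, -, dAB, hA, hB⟩
  rw [Set.disjoint_union_left] at dAB
  exact no_skew A₁ A₂ B₁ B₂ nA₁ nA₂ nB₁ nB₂ hU dA dAB.1 dAB.2 hA hB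

/-- The negated form of Q1: there is a balanced graph (with 48 vertices) that is not basic and has
neither a 2-join nor a skew partition. -/
theorem result : ∃ G : SimpleGraph (Fin 48),
    Balanced G ∧ ¬ Basic G ∧ ¬ HasTwoJoin G ∧ ¬ HasSkewPartition G :=
  ⟨G, balanced_G, not_basic_G, no_two_join_G, no_skew_G⟩

end Pool.Agent.Results.MP_4a358c_co.Counterexample
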